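import Pool.Agent.helper61.PN.Main

/-!
# Algebras with a nonzero commutative quotient
-/

namespace Pool.Agent.helper61.PN

open Module

section
variable {A : Type*} [NonUnitalRing A]

lemma foldl_add (l : List A) (a b : A) :
    l.foldl (fun x y => x * y) (a + b) = l.foldl (fun x y => x * y) a + l.foldl (fun x y => x * y) b := by
  induction l generalizing a b with
  | nil => rfl
  | cons c l ih => simp only [List.foldl_cons, add_mul, ih]

lemma foldl_zero (l : List A) : l.foldl (fun x y => x * y) (0 : A) = 0 := by
  induction l with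
  | nil => rfl
  | cons c l ih => simp only [List.foldl_cons, zero_mul, ih]

lemma foldl_smul {K : Type*} [Field K] [Module K A] [IsScalarTower K A A] (l : List A) (k : K) (a : A) :
    l.foldl (fun x y => x * y) (k • a) = k • l.foldl (fun x y => x * y) a := by
  induction l generalizing a with
  | nil => rfl
  | cons c l ih => simp only [List.foldl_cons, smul_mul_assoc, ih]

/-- grouping in pairs. -/
lemma foldl_pairs (n : ℕ) : ∀ (x : A) (l : List A), l.length = 2 * n → ∃ l' : List A,
    l'.length = n ∧ (∀ y ∈ l', ∃ b c, y = b * c) ∧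
    l.foldl (fun x y => x * y) x = l'.foldl (fun x y => x * y) x := by
  induction n with
  | zero =>
    intro x l hl
    have : l = [] := List.length_eq_zero_iff.mp (by omega)
    subst this
    exact ⟨[], rfl, by simp, rfl⟩
  | succ n ih =>
    intro x l hl
    match l, hl with
    | c :: d :: t, hl =>
      simp only [List.length_cons] at hl
      obtain ⟨l', h1, h2, h3⟩ := ih (x * (c * d)) t (by omega)
      refine ⟨(c * d) :: l', by rw [List.length_cons, h1], ?_, ?_⟩
      · intro y hy
        rcases List.mem_cons.mp hy with rfl | hy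
        · exact ⟨c, d, rfl⟩
        · exact h2 y hy
      · simp only [List.foldl_cons]
        rw [← h3, mul_assoc]
    | [_], hl => simp at hl; omega
    | [], hl => simp at hl

end

section
variable (K : Type*) [Field K]

/-- all proper subalgebras are nilpotent. -/
def PropNil (A : Type*) [NonUnitalRing A] [Module K A] [IsScalarTower K A A]
    [SMulCommClass K A A] : Prop :=
  ∀ B : NonUnitalSubalgebra K A, B ≠ ⊤ →
    ∃ n : ℕ, ∀ a ∈ B, ∀ l : List A, (∀ x ∈ l, x ∈ B) → l.length = n →
      l.foldl (fun x y => x * y) a = 0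

/-- the algebra is nilpotent. -/
def Nilp (A : Type*) [NonUnitalRing A] : Prop :=
  ∃ n : ℕ, ∀ a : A, ∀ l : List A, l.length = n → l.foldl (fun x y => x * y) a = 0

variable {K}

/-- the commutative case. -/
theorem comm_A [CharZero K] (A : Type*) [NonUnitalCommRing A] [Module K A] [IsScalarTower K A A]
    [SMulCommClass K A A] (hdim : ∀ e : A, ∃ x : A, x ∉ K ∙ e) (h : PropNil K A) : Nilp A := by
  set m : Ideal (Unitization K A) := RingHom.ker (Unitization.fstHom K A) with hm
  have hmem : ∀ x : Unitization K A, x ∈ m ↔ x.fst = 0 := by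
    intro x
    rw [hm, RingHom.mem_ker]
    rfl
  have hinr : ∀ a : A, ((a : A) : Unitization K A) ∈ m := by
    intro a
    rw [hmem, Unitization.fst_inr]
  have heq : ∀ x ∈ m, x = ((x.snd : A) : Unitization K A) := by
    intro x hx
    rw [hmem] at hx
    ext
    · rw [hx, Unitization.fst_inr]
    · rw [Unitization.snd_inr]
  have hfold : ∀ (l : List A) (a : A), ((l.foldl (fun x y => x * y) a : A) : Unitization K A)
      = (a : Unitization K A) * (l.map fun x : A => (Unitization.inr x : Unitization K A)).prod := by
    intro l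
    induction l with
    | nil => intro a; simp
    | cons c l ih =>
      intro a
      rw [List.foldl_cons, ih, List.map_cons, List.prod_cons, Unitization.inr_mul, mul_assoc]
  have h1 : (1 : Unitization K A) ∉ m := by
    rw [hmem, Unitization.fst_one]
    exact one_ne_zero
  have hprop : ∀ S : Subalgebra K (Unitization K A), S ≠ ⊤ → ∃ n : ℕ,
      ∀ l : List (Unitization K A), (∀ x ∈ l, x ∈ S ∧ x ∈ m) → l.length = n → l.prod = 0 := by
    intro S hS
    set B : NonUnitalSubalgebra K A :=
      S.toNonUnitalSubalgebra.comap (Unitization.inrNonUnitalAlgHom K A) with hB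
    have hBm : ∀ a : A, a ∈ B ↔ (a : Unitization K A) ∈ S := fun a => Iff.rfl
    have hBt : B ≠ ⊤ := by
      intro ht
      apply hS
      rw [eq_top_iff]
      intro u _
      have h2 : (u.snd : Unitization K A) ∈ S := by
        rw [← hBm, ht]
        exact NonUnitalAlgebra.mem_top
      have h3 : u = algebraMap K _ u.fst + (u.snd : Unitization K A) := by
        rw [Unitization.algebraMap_eq_inl]
        exact (Unitization.inl_fst_add_inr_snd_eq u).symm
      rw [h3]
      exact S.add_mem (S.algebraMap_mem _) h2
    obtain ⟨n, hn⟩ := h B hBt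
    refine ⟨n + 1, ?_⟩
    intro l hl hln
    match l, hln with
    | x :: t, hln =>
      rw [List.length_cons, Nat.add_right_cancel_iff] at hln
      have hx := hl x List.mem_cons_self
      have ht := fun y hy => hl y (List.mem_cons_of_mem x hy)
      have h2 := hn x.snd (by rw [hBm, ← heq x hx.2]; exact hx.1) (t.map fun y => y.snd) (by
        intro y hy
        rw [List.mem_map] at hy
        obtain ⟨y', hy', rfl⟩ := hy
        rw [hBm, ← heq y' (ht y' hy').2]
        exact (ht y' hy').1) (by rw [List.length_map, hln])
      have h3 := hfold (t.map fun y => y.snd) x.snd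
      rw [h2, List.map_map, ← heq x hx.2] at h3
      have h4 : t.map ((fun x : A => (Unitization.inr x : Unitization K A)) ∘ fun y => y.snd) = t := by
        conv_rhs => rw [← List.map_id t]
        refine List.map_congr_left fun y hy => ?_
        exact (heq y (ht y hy).2).symm
      rw [h4] at h3
      rw [List.prod_cons, ← h3, Unitization.inr_zero]
    | [], hln => simp at hln
  have hd : ∀ e ∈ m, ∃ x ∈ m, x ∉ K ∙ e := by
    intro e he
    obtain ⟨x, hx⟩ := hdim e.snd
    refine ⟨x, hinr x, ?_⟩
    intro hxe
    apply hx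
    rw [Submodule.mem_span_singleton] at hxe ⊢
    obtain ⟨k, hk⟩ := hxe
    refine ⟨k, ?_⟩
    have := congrArg (fun v : Unitization K A => v.snd) hk
    rwa [Unitization.snd_smul, Unitization.snd_inr] at this
  obtain ⟨n, hn⟩ := comm_U m h1 hprop hd
  refine ⟨n, fun a l hl => ?_⟩
  have h2 := hn (l.map fun x : A => (Unitization.inr x : Unitization K A)) (by
    intro x hx
    rw [List.mem_map] at hx
    obtain ⟨y, _, rfl⟩ := hx
    exact hinr y) (by rw [List.length_map, hl])
  have h3 := hfold l a
  rw [h2, mul_zero] at h3
  have := congrArg (fun v : Unitization K A => v.snd) h3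
  rwa [Unitization.snd_inr, Unitization.snd_zero] at this

/-- all `n`-fold continuations of `a` vanish: a subalgebra. -/
def killSub (K : Type*) [Field K] (A : Type*) [NonUnitalRing A] [Module K A] [IsScalarTower K A A]
    [SMulCommClass K A A] (n : ℕ)
    (h : ∀ b c : A, ∀ l : List A, l.length = n → l.foldl (fun x y => x * y) (b * c) = 0) :
    NonUnitalSubalgebra K A where
  carrier := {a | ∀ l : List A, l.length = n → l.foldl (fun x y => x * y) a = 0}
  add_mem' := by
    intro a b ha hb l hl
    rw [foldl_add, ha l hl, hb l hl, add_zero]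
  zero_mem' := fun l _ => foldl_zero l
  mul_mem' := fun {a b} _ _ l hl => h a b l hl
  smul_mem' := by
    intro k a ha l hl
    rw [foldl_smul, ha l hl, smul_zero]

/-- a nonzero nilpotent algebra is not generated by products. -/
lemma exists_proper (A : Type*) [NonUnitalRing A] [Module K A] [IsScalarTower K A A]
    [SMulCommClass K A A] [Nontrivial A] (h : Nilp A) :
    ∃ P : NonUnitalSubalgebra K A, P ≠ ⊤ ∧ ∀ b c : A, b * c ∈ P := by
  classical
  obtain ⟨a, ha⟩ := exists_ne (0 : A)
  obtain ⟨n, hn, hmin⟩ : ∃ n : ℕ,
      (∀ a : A, ∀ l : List A, l.length = n → l.foldl (fun x y => x * y) a = 0) ∧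
      ∀ k < n, ¬ ∀ a : A, ∀ l : List A, l.length = k → l.foldl (fun x y => x * y) a = 0 :=
    ⟨Nat.find h, Nat.find_spec h, fun k hk => Nat.find_min h hk⟩
  cases n with
  | zero =>
    exact absurd (hn a [] rfl) ha
  | succ k =>
    refine ⟨killSub K A k fun b c l hl => ?_, ?_, ?_⟩
    · have := hn b (c :: l) (by rw [List.length_cons, hl])
      rwa [List.foldl_cons] at this
    · intro ht
      apply hmin k (Nat.lt_succ_self k)
      intro a l hl
      have h1 : a ∈ killSub K A k (fun b c l hl => by
          have := hn b (c :: l) (by rw [List.length_cons, hl])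
          rwa [List.foldl_cons] at this) := by
        rw [ht]
        exact NonUnitalAlgebra.mem_top
      exact h1 l hl
    · intro b c l hl
      have := hn b (c :: l) (by rw [List.length_cons, hl])
      rwa [List.foldl_cons] at this

/-- a proper subalgebra containing all products: the algebra is nilpotent. -/
lemma nilp_of_proper (A : Type*) [NonUnitalRing A] [Module K A] [IsScalarTower K A A]
    [SMulCommClass K A A] (h : PropNil K A) (P : NonUnitalSubalgebra K A) (hP : P ≠ ⊤)
    (hbc : ∀ b c : A, b * c ∈ P) : Nilp A := by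
  obtain ⟨n, hn⟩ := h P hP
  refine ⟨2 * n + 1, ?_⟩
  intro a l hl
  match l, hl with
  | c :: t, hl =>
    rw [List.length_cons, Nat.add_right_cancel_iff] at hl
    rw [List.foldl_cons]
    obtain ⟨l', h1, h2, h3⟩ := foldl_pairs n (a * c) t hl
    rw [h3]
    refine hn _ (hbc a c) l' (fun x hx => ?_) h1
    obtain ⟨b, d, rfl⟩ := h2 x hx
    exact hbc b d
  | [], hl => simp at hl

section
variable {A : Type*} [NonUnitalRing A] [Module K A] [IsScalarTower K A A] [SMulCommClass K A A]
  {A' : Type*} [NonUnitalRing A'] [Module K A'] [IsScalarTower K A' A'] [SMulCommClass K A' A']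

lemma map_foldl (π : A →ₙₐ[K] A') (l : List A) (a : A) :
    π (l.foldl (fun x y => x * y) a) = (l.map π).foldl (fun x y => x * y) (π a) := by
  induction l generalizing a with
  | nil => rfl
  | cons c l ih => rw [List.foldl_cons, ih, map_mul, List.map_cons, List.foldl_cons]

lemma comap_ne_top (π : A →ₙₐ[K] A') (hπ : Function.Surjective π) (B : NonUnitalSubalgebra K A')
    (hB : B ≠ ⊤) : B.comap π ≠ ⊤ := by
  intro h
  apply hB
  rw [eq_top_iff]
  intro b _
  obtain ⟨a, rfl⟩ := hπ b
  have h1 : a ∈ B.comap π := by rw [h]; exact NonUnitalAlgebra.mem_top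
  exact h1

/-- the hypothesis passes to quotients. -/
lemma propNil_map (π : A →ₙₐ[K] A') (hπ : Function.Surjective π) (h : PropNil K A) :
    PropNil K A' := by
  intro B hB
  obtain ⟨n, hn⟩ := h _ (comap_ne_top π hπ B hB)
  refine ⟨n, fun a ha l hl hln => ?_⟩
  choose s hs using hπ
  have h1 := hn (s a) (by
    change π (s a) ∈ B
    rw [hs]; exact ha) (l.map s) (by
    intro x hx
    rw [List.mem_map] at hx
    obtain ⟨y, hy, rfl⟩ := hx
    change π (s y) ∈ B
    rw [hs]; exact hl y hy) (by rw [List.length_map, hln])
  have h2 := map_foldl π (l.map s) (s a)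
  rw [h1, map_zero, hs, List.map_map] at h2
  have h3 : l.map (π ∘ s) = l := by
    conv_rhs => rw [← List.map_id l]
    exact List.map_congr_left fun x _ => hs x
  rw [h3] at h2
  exact h2.symm

end

lemma hdim_of_rank (A : Type*) [AddCommGroup A] [Module K A] (h : 1 < Module.rank K A) :
    ∀ e : A, ∃ x : A, x ∉ K ∙ e := by
  intro e
  by_contra hne
  push Not at hne
  have h1 : Module.rank K A ≤ 1 := by
    rw [rank_le_one_iff]
    refine ⟨e, fun v => ?_⟩
    exact Submodule.mem_span_singleton.mp (hne v)
  exact absurd h (not_lt.mpr h1)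

/-- an algebra generated by one element is commutative. -/
lemma comm_of_adjoin (A : Type*) [NonUnitalRing A] [Module K A] [IsScalarTower K A A]
    [SMulCommClass K A A] (a : A) (h : NonUnitalAlgebra.adjoin K {a} = ⊤) (x y : A) :
    x * y = y * x := by
  have h1 : ∀ x : A, x ∈ NonUnitalAlgebra.adjoin K {a} → x * a = a * x := by
    intro x hx
    induction hx using NonUnitalAlgebra.adjoin_induction with
    | mem x hx => rw [Set.mem_singleton_iff.mp hx]
    | add x y _ _ hx hy => rw [add_mul, mul_add, hx, hy]
    | zero => rw [zero_mul, mul_zero]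
    | mul x y _ _ hx hy => rw [mul_assoc, hy, ← mul_assoc, hx, mul_assoc]
    | smul r x _ hx => rw [smul_mul_assoc, mul_smul_comm, hx]
  have h2 : ∀ y : A, y ∈ NonUnitalAlgebra.adjoin K {a} → x * y = y * x := by
    intro y hy
    induction hy using NonUnitalAlgebra.adjoin_induction with
    | mem y hy =>
      rw [Set.mem_singleton_iff.mp hy]
      exact h1 x (by rw [h]; exact NonUnitalAlgebra.mem_top)
    | add y z _ _ hy hz => rw [add_mul, mul_add, hy, hz]
    | zero => rw [zero_mul, mul_zero]
    | mul y z _ _ hy hz => rw [← mul_assoc, hy, mul_assoc, hz, ← mul_assoc]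
    | smul r y _ hy => rw [smul_mul_assoc, mul_smul_comm, hy]
  exact h2 y (by rw [h]; exact NonUnitalAlgebra.mem_top)

/-- **main theorem**. -/
theorem main [CharZero K] (A : Type*) [NonUnitalRing A] [Module K A] [IsScalarTower K A A]
    [SMulCommClass K A A] (hrank : 1 < Module.rank K A) (h : PropNil K A)
    (A' : Type*) [NonUnitalRing A'] [Module K A'] [IsScalarTower K A' A'] [SMulCommClass K A' A']
    [Nontrivial A'] (hcomm : ∀ x y : A', x * y = y * x) (π : A →ₙₐ[K] A')
    (hπ : Function.Surjective π) : Nilp A := by
  have hfin : Nilp A' → Nilp A := by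
    intro hA'
    obtain ⟨P, hP, hbc⟩ := exists_proper (K := K) A' hA'
    refine nilp_of_proper A h (P.comap π) (comap_ne_top π hπ P hP) fun b c => ?_
    change π (b * c) ∈ P
    rw [map_mul]
    exact hbc _ _
  have hA' := propNil_map π hπ h
  by_cases hdim : ∀ e : A', ∃ x : A', x ∉ K ∙ e
  · apply hfin
    let inst : NonUnitalCommRing A' := { (inferInstance : NonUnitalRing A') with mul_comm := hcomm }
    exact comm_A A' hdim hA'
  push Not at hdim
  obtain ⟨e, he⟩ := hdim
  by_cases hN : Nilp A'
  · exact hfin hN
  obtain ⟨μ, hμ⟩ := Submodule.mem_span_singleton.mp (he (e * e))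
  have hμ0 : μ ≠ 0 := by
    rintro rfl
    apply hN
    refine ⟨1, ?_⟩
    intro a l hl
    match l, hl with
    | [b], _ =>
      obtain ⟨α, rfl⟩ := Submodule.mem_span_singleton.mp (he a)
      obtain ⟨β, rfl⟩ := Submodule.mem_span_singleton.mp (he b)
      simp only [List.foldl_cons, List.foldl_nil]
      rw [smul_mul_assoc, mul_smul_comm, ← hμ, zero_smul, smul_zero, smul_zero]
  have he0 : e ≠ 0 := by
    rintro rfl
    obtain ⟨x, hx⟩ := exists_ne (0 : A')
    apply hx
    have := he x
    rwa [Submodule.span_zero_singleton, Submodule.mem_bot] at this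
  obtain ⟨a, ha⟩ := hπ e
  have hadj : NonUnitalAlgebra.adjoin K {a} = ⊤ := by
    by_contra hne
    obtain ⟨n, hn⟩ := h _ hne
    have h1 := hn a (NonUnitalAlgebra.subset_adjoin K rfl) (List.replicate n a) (by
      intro x hx
      rw [List.mem_replicate] at hx
      rw [hx.2]
      exact NonUnitalAlgebra.subset_adjoin K rfl) List.length_replicate
    have h2 := map_foldl π (List.replicate n a) a
    rw [h1, map_zero, ha, List.map_replicate, ha] at h2
    have h3 : ∀ n : ℕ, (List.replicate n e).foldl (fun x y => x * y) e = μ ^ n • e := by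
      intro n
      induction n with
      | zero => rw [pow_zero, one_smul]; rfl
      | succ n ih =>
        rw [List.replicate_succ', List.foldl_append, ih, List.foldl_cons, List.foldl_nil,
          smul_mul_assoc, ← hμ, smul_smul, pow_succ]
    rw [h3] at h2
    exact (smul_ne_zero (pow_ne_zero n hμ0) he0) h2.symm
  let inst : NonUnitalCommRing A :=
    { (inferInstance : NonUnitalRing A) with mul_comm := comm_of_adjoin A a hadj }
  exact comm_A A (hdim_of_rank A hrank) h

end

end Pool.Agent.helper61.PN
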