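import Pool.Agent.helper61.PN.Lin

/-!
# The commutative case: the main step
-/

namespace Pool.Agent.helper61.PN

open Finset Module Polynomial

variable {K : Type*} [Field K] [CharZero K] {U : Type*} [CommRing U] [Algebra K U]

omit [CharZero K] in
/-- a finite dimensional ideal `F` with `F = m F`, `m` nil, vanishes. -/
lemma nak (m F : Ideal U) (hnil : ∀ x ∈ m, IsNilpotent x) (hF : F ≤ m * F)
    (hfd : FiniteDimensional K (F.restrictScalars K)) : F = ⊥ := by
  have hfg : Submodule.FG F := by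
    apply Submodule.FG.of_restrictScalars K
    exact (Submodule.fg_iff_finiteDimensional _).mpr hfd
  refine Submodule.eq_bot_of_le_smul_of_le_jacobson_bot m F hfg hF ?_
  intro x hx
  rw [Ideal.mem_jacobson_bot]
  intro y
  have h1 : IsNilpotent (x * y) := (Commute.all x y).isNilpotent_mul_right (hnil x hx)
  exact h1.isUnit_add_one

/-- `w ↦ ∑ w_k y^(k+1)`. -/
noncomputable def Phi (S : Subalgebra K U) (N : ℕ) (y : U) : (Fin N → S) →ₗ[K] U :=
  ∑ k : Fin N, (LinearMap.mulRight K (y ^ ((k : ℕ) + 1))).comp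
    (S.val.toLinearMap.comp (LinearMap.proj k))

omit [CharZero K] in
lemma Phi_apply (S : Subalgebra K U) (N : ℕ) (y : U) (w : Fin N → S) :
    Phi S N y w = ∑ k : Fin N, (w k : U) * y ^ ((k : ℕ) + 1) := by
  rw [Phi, LinearMap.sum_apply]
  rfl

/-- the Euler operator. -/
def Eul (S : Subalgebra K U) (N : ℕ) (w : Fin N → S) : Fin N → S :=
  fun k => ((k : ℕ) + 1 : ℕ) • w k

/-- the polynomial of the line. -/
noncomputable def lineP (S : Subalgebra K U) (N : ℕ) (y η : U) (w : Fin N → S) : U[X] :=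
  ∑ k : Fin N, C (w k : U) * (C y + X * C η) ^ ((k : ℕ) + 1)

omit [CharZero K] in
lemma lineP_eval (S : Subalgebra K U) (N : ℕ) (y η : U) (w : Fin N → S) (u : K) :
    (lineP S N y η w).eval (algebraMap K U u) = Phi S N (y + u • η) w := by
  rw [lineP, eval_finsetSum, Phi_apply]
  refine sum_congr rfl fun k _ => ?_
  rw [eval_mul, eval_C, eval_pow, eval_add, eval_C, eval_mul, eval_X, eval_C, Algebra.smul_def]

omit [CharZero K] in
lemma lineP_coeff_one (S : Subalgebra K U) (N : ℕ) (y η : U) (w : Fin N → S) :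
    (lineP S N y η w).coeff 1 = ∑ k : Fin N, ((((k : ℕ) + 1 : ℕ) : U) * (w k : U) * y ^ (k : ℕ)) * η := by
  have h1 : (lineP S N y η w).coeff 1 = (derivative (lineP S N y η w)).eval 0 := by
    rw [← coeff_zero_eq_eval_zero, coeff_derivative]
    simp
  rw [h1, lineP, derivative_sum, eval_finsetSum]
  refine sum_congr rfl fun k _ => ?_
  rw [derivative_C_mul, derivative_pow, derivative_add, derivative_C, derivative_mul, derivative_X,
    derivative_C, eval_mul, eval_C, eval_mul, eval_mul, eval_pow, eval_add, eval_C, eval_mul,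
    eval_X, eval_C]
  simp only [Nat.add_sub_cancel, zero_mul, add_zero, one_mul, zero_add, mul_zero, eval_C]
  ring

omit [CharZero K] in
lemma eval_eq_sum_smul (P : U[X]) (u : K) :
    P.eval (algebraMap K U u) = ∑ i ∈ range (P.natDegree + 1), u ^ i • P.coeff i := by
  rw [eval_eq_sum_range]
  refine sum_congr rfl fun i _ => ?_
  rw [Algebra.smul_def, map_pow, mul_comm]

omit [CharZero K] in
lemma eval_sub_coeff (P : U[X]) : ∃ M : ℕ, 0 < M ∧ ∀ u : K,
    P.eval (algebraMap K U u) = P.coeff 0 + u • ∑ i ∈ range M, u ^ i • P.coeff (i + 1) := by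
  refine ⟨P.natDegree + 1, Nat.succ_pos _, fun u => ?_⟩
  have h1 : P.natDegree < P.natDegree + 1 + 1 := by omega
  rw [eval_eq_sum_range' h1, sum_range_succ', pow_zero, mul_one, add_comm, smul_sum]
  congr 1
  refine sum_congr rfl fun i _ => ?_
  rw [smul_smul, Algebra.smul_def, ← pow_succ', map_pow, mul_comm]

/-- **relations at a point of maximal rank are stable under the Euler operator**. -/
lemma relation (m : Ideal U) (hmm : m * m = m) (hnil : ∀ x ∈ m, IsNilpotent x)
    (S : Subalgebra K U) [FiniteDimensional K S] (V₀ : Submodule K U) [FiniteDimensional K V₀]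
    (N : ℕ) (a x : U) (hx : x ∈ m)
    (hmax : ∀ x' ∈ m, finrank K (LinearMap.range (V₀.mkQ.comp (Phi S N (a * x')))) ≤
      finrank K (LinearMap.range (V₀.mkQ.comp (Phi S N (a * x)))))
    (w : Fin N → S) (hw : Phi S N (a * x) w ∈ V₀) : Phi S N (a * x) (Eul S N w) = 0 := by
  set y := a * x with hy
  set c : U := ∑ k : Fin N, (((k : ℕ) + 1 : ℕ) : U) * (w k : U) * y ^ (k : ℕ) with hc
  set D : Submodule K U := LinearMap.range (Phi S N y) ⊔ V₀ with hD
  have hfdD : FiniteDimensional K D := by rw [hD]; infer_instance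
  have key : ∀ ξ ∈ m, c * (a * ξ) ∈ D := by
    intro ξ hξ
    set φ : K → (Fin N → S) →ₗ[K] (U ⧸ V₀) := fun u => V₀.mkQ.comp (Phi S N (y + u • (a * ξ))) with hφ
    have hφ0 : φ 0 = V₀.mkQ.comp (Phi S N y) := by rw [hφ]; simp only [zero_smul, add_zero]
    have hpoly : ∀ w, IsPoly fun u => φ u w := by
      intro w
      refine ⟨(lineP S N y (a * ξ) w).natDegree + 1,
        fun i => V₀.mkQ ((lineP S N y (a * ξ) w).coeff i), fun u => ?_⟩
      rw [hφ]
      simp only [LinearMap.comp_apply]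
      rw [← lineP_eval, eval_eq_sum_smul, map_sum]
      refine sum_congr rfl fun i _ => by rw [map_smul]
    have hr : ∀ u, finrank K (LinearMap.range (φ u)) ≤ finrank K (LinearMap.range (φ 0)) := by
      intro u
      have e : a * (x + u • ξ) = y + u • (a * ξ) := by
        rw [hy, mul_add, mul_smul_comm]
      have h3 := hmax (x + u • ξ) (m.add_mem hx (by
        rw [Algebra.smul_def]
        exact m.mul_mem_left _ hξ))
      rw [e] at h3
      rw [hφ0]
      exact h3
    obtain ⟨M, hM, hMu⟩ := eval_sub_coeff (K := K) (lineP S N y (a * ξ) w)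
    have h0 : (lineP S N y (a * ξ) w).coeff 0 = Phi S N y w := by
      have := lineP_eval S N y (a * ξ) w (0 : K)
      rw [map_zero, zero_smul, add_zero] at this
      rw [coeff_zero_eq_eval_zero, this]
    have ht := tangent φ hpoly hr w M (fun i => V₀.mkQ ((lineP S N y (a * ξ) w).coeff (i + 1))) hM (by
      intro u
      have h1 : φ u w = V₀.mkQ (Phi S N (y + u • (a * ξ)) w) := rfl
      rw [h1, ← lineP_eval, hMu u, map_add, h0]
      have h2 : V₀.mkQ (Phi S N y w) = 0 := by
        rw [Submodule.mkQ_apply, Submodule.Quotient.mk_eq_zero]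
        exact hw
      rw [h2, zero_add, map_smul, map_sum]
      simp only [map_smul])
    simp only [zero_add] at ht
    rw [hφ0] at ht
    obtain ⟨w', hw'⟩ := ht
    rw [LinearMap.comp_apply, lineP_coeff_one, ← sum_mul, ← hc, Submodule.mkQ_apply,
      Submodule.mkQ_apply, Submodule.Quotient.eq] at hw'
    have : c * (a * ξ) = Phi S N y w' + -(Phi S N y w' - c * (a * ξ)) := by ring
    rw [this]
    exact Submodule.add_mem_sup (LinearMap.mem_range_self _ _) (V₀.neg_mem hw')
  -- the ideal `c a m`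
  set F : Ideal U := Ideal.span {c * a} * m with hF
  have hFD : ∀ f ∈ F, f ∈ D := by
    intro f hf
    rw [hF, Ideal.mem_span_singleton_mul] at hf
    obtain ⟨ξ, hξ, rfl⟩ := hf
    rw [mul_assoc]
    exact key ξ hξ
  have hFfd : FiniteDimensional K (F.restrictScalars K) :=
    Submodule.finiteDimensional_of_le (S₂ := D) (fun f hf => hFD f hf)
  have hFm : F ≤ m * F := by
    rw [hF, mul_comm m, mul_assoc, hmm]
  have hF0 := nak m F hnil hFm hFfd
  have h1 : c * a * x ∈ F := by
    rw [hF, Ideal.mem_span_singleton_mul]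
    exact ⟨x, hx, rfl⟩
  rw [hF0, Ideal.mem_bot] at h1
  rw [Phi_apply]
  have h2 : ∑ k : Fin N, ((Eul S N w k : S) : U) * y ^ ((k : ℕ) + 1) = c * a * x := by
    rw [hc, mul_assoc, ← hy, sum_mul]
    refine sum_congr rfl fun k _ => ?_
    rw [Eul, Subalgebra.coe_smul, nsmul_eq_mul, pow_succ]
    ring
  rw [h2, h1]

/-- scaling by a polynomial in the degree. -/
noncomputable def scl (S : Subalgebra K U) (N : ℕ) (Q : K[X]) (w : Fin N → S) : Fin N → S :=
  fun k => Q.eval (((k : ℕ) + 1 : ℕ) : K) • w k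

/-- if all relations are stable under the Euler operator, they are trivial. -/
lemma relation_zero (S : Subalgebra K U) (V₀ : Submodule K U) (N : ℕ) (y : U)
    (h : ∀ w : Fin N → S, Phi S N y w ∈ V₀ → Phi S N y (Eul S N w) = 0)
    (w : Fin N → S) (hw : Phi S N y w ∈ V₀) : Phi S N y w = 0 := by
  have hE : ∀ (w : Fin N → S) (Q : K[X]), Eul S N (scl S N Q w) = scl S N (Q * X) w := by
    intro w Q
    ext k
    rw [Eul, scl, scl, eval_mul, eval_X, mul_comm, mul_smul, Nat.cast_smul_eq_nsmul]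
  have hst : ∀ Q : K[X], Phi S N y (scl S N Q w) ∈ V₀ := by
    intro Q
    induction Q using Polynomial.induction_on' with
    | add p q hp hq =>
      have e : scl S N (p + q) w = scl S N p w + scl S N q w := by
        ext k
        simp only [scl, eval_add, add_smul, Pi.add_apply]
      rw [e, map_add]
      exact V₀.add_mem hp hq
    | monomial n a =>
      induction n with
      | zero =>
        have e : scl S N (monomial 0 a) w = a • w := by
          ext k
          simp only [scl, monomial_zero_left, eval_C, Pi.smul_apply]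
        rw [e, map_smul]
        exact V₀.smul_mem _ hw
      | succ n ih =>
        rw [← monomial_mul_X, ← hE]
        rw [h _ ih]
        exact V₀.zero_mem
  set P : K[X] := ∏ k ∈ range N, (X - C ((k + 1 : ℕ) : K)) with hP
  have hP0 : P.eval 0 ≠ 0 := by
    rw [hP, eval_prod, prod_ne_zero_iff]
    intro k _
    rw [eval_sub, eval_X, eval_C, zero_sub, neg_ne_zero, Nat.cast_ne_zero]
    omega
  have hPk : ∀ k : Fin N, P.eval (((k : ℕ) + 1 : ℕ) : K) = 0 := by
    intro k
    rw [hP, eval_prod]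
    refine prod_eq_zero (mem_range.mpr k.2) ?_
    rw [eval_sub, eval_X, eval_C, sub_self]
  have h1 := h _ (hst P.divX)
  rw [hE] at h1
  have h2 : scl S N (P.divX * X) w = -(P.eval 0) • w := by
    ext k
    have h3 : (P.divX * X).eval (((k : ℕ) + 1 : ℕ) : K) = -(P.eval 0) := by
      have h4 := congrArg (eval (((k : ℕ) + 1 : ℕ) : K)) (divX_mul_X_add P)
      rw [eval_add, eval_C, hPk, coeff_zero_eq_eval_zero] at h4
      exact eq_neg_of_add_eq_zero_left h4
    rw [scl, h3, Pi.smul_apply]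
  rw [h2, map_smul] at h1
  exact (smul_eq_zero.mp h1).resolve_left (neg_ne_zero.mpr hP0)

omit [CharZero K] in
/-- elements of `S[y]`, `y` nilpotent. -/
lemma mem_adjoin_nil (S : Subalgebra K U) (N : ℕ) (y : U) (hy : y ^ N = 0) (v : U)
    (hv : v ∈ Algebra.adjoin S {y}) : ∃ (s : S) (w : Fin N → S), v = s + Phi S N y w := by
  rw [Algebra.adjoin_singleton_eq_range_aeval] at hv
  obtain ⟨P, rfl⟩ := hv
  refine ⟨P.coeff 0, fun k => P.coeff ((k : ℕ) + 1), ?_⟩
  have h1 : P.natDegree < P.natDegree + N + 1 := by omega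
  have h2 : (aeval y : S[X] →ₐ[S] U).toRingHom P = aeval y P := rfl
  rw [h2, aeval_eq_sum_range' h1, sum_range_succ', pow_zero, add_comm]
  congr 1
  · rw [Subalgebra.smul_def, smul_eq_mul, mul_one]
  · rw [Phi_apply, Finset.sum_range fun i => P.coeff (i + 1) • y ^ (i + 1)]
    have h3 : ∑ i ∈ range (P.natDegree + N), P.coeff (i + 1) • y ^ (i + 1)
        = ∑ i ∈ range N, P.coeff (i + 1) • y ^ (i + 1) := by
      symm
      refine sum_subset (range_mono (by omega)) fun i _ hi => ?_
      rw [mem_range, not_lt] at hi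
      rw [pow_eq_zero_of_le (by omega : N ≤ i + 1) hy, smul_zero]
    rw [← Finset.sum_range fun i => P.coeff (i + 1) • y ^ (i + 1), h3, Finset.sum_range]
    rfl

omit [CharZero K] in
lemma exists_max (m : Ideal U) (f : U → ℕ) (B : ℕ) (hB : ∀ x, f x ≤ B) :
    ∃ x ∈ m, ∀ x' ∈ m, f x' ≤ f x := by
  have h1 : (f '' (m : Set U)).Nonempty := ⟨f 0, 0, m.zero_mem, rfl⟩
  have h2 : BddAbove (f '' (m : Set U)) := ⟨B, by rintro _ ⟨x, _, rfl⟩; exact hB x⟩
  obtain ⟨x, hx, hxs⟩ := Nat.sSup_mem h1 h2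
  exact ⟨x, hx, fun x' hx' => by rw [hxs]; exact le_csSup h2 ⟨x', hx', rfl⟩⟩

omit [CharZero K] in
lemma exists_three (m : Ideal U) (hmm : m * m = m) (p : U) (hp : ∃ x ∈ m, p * x ≠ 0) :
    ∃ a ∈ m, ∃ x₁ ∈ m, ∃ x₂ ∈ m, p * (a * x₁) * x₂ ≠ 0 := by
  by_contra hne
  push Not at hne
  obtain ⟨x, hx, hpx⟩ := hp
  apply hpx
  rw [← hmm] at hx
  refine Submodule.mul_induction_on hx ?_ ?_
  · intro s hs x₂ hx₂
    rw [← hmm] at hs
    rw [← mul_assoc]
    refine Submodule.mul_induction_on hs ?_ ?_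
    · intro a ha x₁ hx₁
      exact hne a ha x₁ hx₁ x₂ hx₂
    · intro s t hs ht
      rw [mul_add, add_mul, hs, ht, add_zero]
  · intro s t hs ht
    rw [mul_add, hs, ht, add_zero]

/-- **the main step**. -/
theorem main_step (m : Ideal U) (hmm : m * m = m) (hnil : ∀ x ∈ m, IsNilpotent x)
    (S : Subalgebra K U) [FiniteDimensional K S] (z : U) (hz : z ∉ S) (p : U)
    (hp : ∃ x ∈ m, p * x ≠ 0) :
    ∃ S' : Subalgebra K U, S ≤ S' ∧ FiniteDimensional K S' ∧ z ∉ S' ∧
      ∃ y ∈ S', y ∈ m ∧ ∃ x ∈ m, p * y * x ≠ 0 := by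
  obtain ⟨a, ha, x₁, hx₁, x₂, hx₂, hne⟩ := exists_three m hmm p hp
  obtain ⟨N, hN⟩ := hnil a ha
  have hSfd : FiniteDimensional K (Subalgebra.toSubmodule S) := ‹FiniteDimensional K S›
  set V₀ : Submodule K U := Subalgebra.toSubmodule S ⊔ K ∙ z with hV₀
  have hV₀fd : FiniteDimensional K V₀ := by rw [hV₀]; infer_instance
  set f : U → ℕ := fun x => finrank K (LinearMap.range (V₀.mkQ.comp (Phi S N (a * x)))) with hf
  obtain ⟨x₀, hx₀, hmax₀⟩ := exists_max m f (finrank K (Fin N → S)) (fun x =>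
    LinearMap.finrank_range_le _)
  obtain ⟨x, hx, hmax, hpx⟩ : ∃ x ∈ m, (∀ x' ∈ m, f x' ≤ f x) ∧ ∃ x' ∈ m, p * (a * x) * x' ≠ 0 := by
    by_cases h : ∃ x' ∈ m, p * (a * x₀) * x' ≠ 0
    · exact ⟨x₀, hx₀, hmax₀, h⟩
    · push Not at h
      set φ : K → (Fin N → S) →ₗ[K] (U ⧸ V₀) :=
        fun u => V₀.mkQ.comp (Phi S N (a * x₀ + u • (a * x₁))) with hφ
      have hpoly : ∀ w, IsPoly fun u => φ u w := by
        intro w
        refine ⟨(lineP S N (a * x₀) (a * x₁) w).natDegree + 1,
          fun i => V₀.mkQ ((lineP S N (a * x₀) (a * x₁) w).coeff i), fun u => ?_⟩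
        rw [hφ]
        simp only [LinearMap.comp_apply]
        rw [← lineP_eval, eval_eq_sum_smul, map_sum]
        refine sum_congr rfl fun i _ => by rw [map_smul]
      obtain ⟨u, hu, hrk⟩ := rank_open φ hpoly
      have e : a * (x₀ + u • x₁) = a * x₀ + u • (a * x₁) := by rw [mul_add, mul_smul_comm]
      have hm : x₀ + u • x₁ ∈ m := m.add_mem hx₀ (by
        rw [Algebra.smul_def]
        exact m.mul_mem_left _ hx₁)
      have hφ0 : φ 0 = V₀.mkQ.comp (Phi S N (a * x₀)) := by
        rw [hφ]; simp only [zero_smul, add_zero]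
      rw [hφ0] at hrk
      refine ⟨x₀ + u • x₁, hm, fun x' hx' => (hmax₀ x' hx').trans ?_, x₂, hx₂, ?_⟩
      · rw [hf]
        simp only
        rw [e]
        exact hrk
      · rw [e, mul_add, add_mul, h x₂ hx₂, zero_add, mul_smul_comm, smul_mul_assoc]
        exact smul_ne_zero hu hne
  set y := a * x with hy
  have hyN : y ^ N = 0 := by rw [hy, mul_pow, hN, zero_mul]
  have hrel : ∀ w : Fin N → S, Phi S N y w ∈ V₀ → Phi S N y w = 0 :=
    relation_zero S V₀ N y (relation m hmm hnil S V₀ N a x hx hmax)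
  refine ⟨(Algebra.adjoin S {y}).restrictScalars K, ?_, ?_, ?_, y, ?_, ?_, hpx⟩
  · intro s hs
    exact (Algebra.adjoin S {y}).algebraMap_mem (⟨s, hs⟩ : S)
  · have h1 : Subalgebra.toSubmodule ((Algebra.adjoin S {y}).restrictScalars K)
        ≤ Subalgebra.toSubmodule S ⊔ LinearMap.range (Phi S N y) := by
      intro v hv
      obtain ⟨s, w, rfl⟩ := mem_adjoin_nil S N y hyN v hv
      exact Submodule.add_mem_sup s.2 (LinearMap.mem_range_self _ _)
    exact Submodule.finiteDimensional_of_le h1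
  · intro hv
    obtain ⟨s, w, hsw⟩ := mem_adjoin_nil S N y hyN z hv
    have h1 : Phi S N y w = z - s := by rw [hsw]; ring
    have h2 : Phi S N y w ∈ V₀ := by
      rw [h1]
      exact V₀.sub_mem (Submodule.mem_sup_right (Submodule.mem_span_singleton_self z))
        (Submodule.mem_sup_left s.2)
    rw [hrel w h2, add_zero] at hsw
    exact hz (by rw [hsw]; exact s.2)
  · exact Algebra.subset_adjoin rfl
  · rw [hy]
    exact m.mul_mem_left a hx

end Pool.Agent.helper61.PN
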