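import Mathlib

/-!
# Polynomial families of linear maps: openness of independence, tangent lemma
-/

namespace Pool.Agent.helper61.PN

open Finset Module Polynomial

variable {K : Type*} [Field K] [Infinite K] {V : Type*} [AddCommGroup V] [Module K V]

/-- a polynomial curve in `V`. -/
def IsPoly (f : K → V) : Prop := ∃ (M : ℕ) (g : ℕ → V), ∀ u, f u = ∑ i ∈ range M, u ^ i • g i

omit [Infinite K] in
lemma IsPoly.dual {f : K → V} (hf : IsPoly f) (l : V →ₗ[K] K) :
    ∃ P : K[X], ∀ u, P.eval u = l (f u) := by
  obtain ⟨M, g, h⟩ := hf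
  refine ⟨∑ i ∈ range M, C (l (g i)) * X ^ i, fun u => ?_⟩
  rw [h u, eval_finsetSum, map_sum]
  refine sum_congr rfl fun i _ => ?_
  rw [eval_mul, eval_C, eval_pow, eval_X, map_smul, smul_eq_mul, mul_comm]

omit [Infinite K] in
/-- independent vectors have a dual family. -/
lemma exists_dual {n : ℕ} {v : Fin n → V} (hv : LinearIndependent K v) :
    ∃ l : Fin n → V →ₗ[K] K, ∀ i j, l j (v i) = if i = j then 1 else 0 := by
  classical
  obtain ⟨p, hp⟩ := (Submodule.span K (Set.range v)).exists_isCompl
  let b := Basis.span hv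
  let pr := Submodule.projectionOnto _ p hp
  refine ⟨fun j => (b.coord j).comp pr, fun i j => ?_⟩
  have h1 : pr (v i) = b i := by
    have h2 : (b i : V) = v i := by
      rw [Basis.span_apply]
    rw [← h2]
    exact Submodule.projectionOnto_apply_left hp (b i)
  rw [LinearMap.comp_apply, h1, Basis.coord_apply, Basis.repr_self, Finsupp.single_apply]

/-- openness of linear independence along polynomial curves. -/
lemma exists_indep {n : ℕ} (v : Fin n → K → V) (hv : ∀ i, IsPoly (v i))
    (h0 : LinearIndependent K fun i => v i 0) :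
    ∃ u : K, u ≠ 0 ∧ LinearIndependent K fun i => v i u := by
  classical
  obtain ⟨l, hl⟩ := exists_dual h0
  choose P hP using fun i j => (hv i).dual (l j)
  set Mx : Matrix (Fin n) (Fin n) K[X] := Matrix.of fun i j => P i j with hMx
  have hdet : ∀ u : K, Mx.det.eval u = (Matrix.of fun i j => l j (v i u)).det := by
    intro u
    rw [← coe_evalRingHom, RingHom.map_det]
    congr 1
    ext i j
    rw [RingHom.mapMatrix_apply, Matrix.map_apply, hMx, Matrix.of_apply, Matrix.of_apply,
      coe_evalRingHom, hP]
  have h1 : Mx.det.eval 0 = 1 := by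
    rw [hdet 0]
    have : (Matrix.of fun i j => l j (v i 0)) = (1 : Matrix (Fin n) (Fin n) K) := by
      ext i j
      rw [Matrix.of_apply, hl, Matrix.one_apply]
    rw [this, Matrix.det_one]
  have h2 : Mx.det * X ≠ 0 := by
    refine mul_ne_zero ?_ X_ne_zero
    intro h
    rw [h, eval_zero] at h1
    exact zero_ne_one h1
  obtain ⟨u, hu⟩ : ∃ u : K, (Mx.det * X).eval u ≠ 0 := by
    by_contra hne
    push Not at hne
    exact h2 (Polynomial.funext fun u => by rw [hne u, eval_zero])
  rw [eval_mul, eval_X] at hu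
  refine ⟨u, right_ne_zero_of_mul hu, ?_⟩
  have h3 := left_ne_zero_of_mul hu
  rw [hdet u] at h3
  let L : V →ₗ[K] (Fin n → K) := LinearMap.pi l
  have h4 : LinearIndependent K (fun i => L (v i u)) := by
    have := Matrix.linearIndependent_rows_of_det_ne_zero h3
    exact this
  exact LinearIndependent.of_comp L h4

section
variable {W : Type*} [AddCommGroup W] [Module K W] [FiniteDimensional K W]

omit [Infinite K] in
lemma exists_basis_range (f : W →ₗ[K] V) : ∃ w : Fin (finrank K (LinearMap.range f)) → W,
    LinearIndependent K (fun i => f (w i)) ∧ Submodule.span K (Set.range fun i => f (w i)) =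
      LinearMap.range f := by
  let b := finBasis K (LinearMap.range f)
  choose w hw using fun i => (b i).2
  refine ⟨w, ?_, ?_⟩
  · have h1 : LinearIndependent K (fun i => ((b i : LinearMap.range f) : V)) :=
      b.linearIndependent.map' (LinearMap.range f).subtype (Submodule.ker_subtype _)
    simpa only [hw] using h1
  · have h2 : (fun i => f (w i)) = (LinearMap.range f).subtype ∘ b := by
      ext i
      exact hw i
    rw [h2, Set.range_comp, ← Submodule.map_span, b.span_eq, Submodule.map_top,
      Submodule.range_subtype]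

omit [Infinite K] in
lemma card_le_finrank_range (f : W →ₗ[K] V) {n : ℕ} {v : Fin n → V} (hv : LinearIndependent K v)
    (h : ∀ i, v i ∈ LinearMap.range f) : n ≤ finrank K (LinearMap.range f) := by
  have h1 : LinearIndependent K (fun i => (⟨v i, h i⟩ : LinearMap.range f)) := by
    apply LinearIndependent.of_comp (LinearMap.range f).subtype
    exact hv
  simpa using h1.fintype_card_le_finrank

/-- the rank does not drop for some small nonzero parameter. -/
lemma rank_open (φ : K → W →ₗ[K] V) (hφ : ∀ w, IsPoly fun u => φ u w) :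
    ∃ u : K, u ≠ 0 ∧ finrank K (LinearMap.range (φ 0)) ≤ finrank K (LinearMap.range (φ u)) := by
  obtain ⟨w, hw, _⟩ := exists_basis_range (φ 0)
  obtain ⟨u, hu, hi⟩ := exists_indep (fun i u => φ u (w i)) (fun i => hφ (w i)) hw
  exact ⟨u, hu, card_le_finrank_range (φ u) hi fun i => LinearMap.mem_range_self _ _⟩

/-- **tangent lemma**: at a point of maximal rank, the derivative of a relation lies in the
range. -/
lemma tangent (φ : K → W →ₗ[K] V) (hφ : ∀ w, IsPoly fun u => φ u w)
    (hr : ∀ u, finrank K (LinearMap.range (φ u)) ≤ finrank K (LinearMap.range (φ 0)))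
    (w : W) (M : ℕ) (g : ℕ → V) (hM : 0 < M)
    (hg : ∀ u, φ u w = u • ∑ i ∈ range M, u ^ i • g i) :
    g 0 ∈ LinearMap.range (φ 0) := by
  classical
  by_contra hne
  obtain ⟨v, hv, hsp⟩ := exists_basis_range (φ 0)
  set F : Fin (finrank K (LinearMap.range (φ 0)) + 1) → K → V :=
    Fin.cons (fun u => ∑ i ∈ range M, u ^ i • g i) (fun i u => φ u (v i)) with hF
  have hF0 : ∀ u, F 0 u = ∑ i ∈ range M, u ^ i • g i := fun u => by rw [hF, Fin.cons_zero]
  have hFs : ∀ i u, F (Fin.succ i) u = φ u (v i) := fun i u => by rw [hF, Fin.cons_succ]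
  have hpoly : ∀ i, IsPoly (F i) := by
    intro i
    refine Fin.cases ?_ (fun j => ?_) i
    · exact ⟨M, g, hF0⟩
    · obtain ⟨M', g', h⟩ := hφ (v j)
      exact ⟨M', g', fun u => by rw [hFs]; exact h u⟩
  have hz : F 0 0 = g 0 := by
    rw [hF0]
    obtain ⟨M', rfl⟩ := Nat.exists_eq_succ_of_ne_zero hM.ne'
    rw [sum_range_succ', pow_zero, one_smul, sum_eq_zero, zero_add]
    intro i _
    rw [zero_pow (Nat.succ_ne_zero i), zero_smul]
  have hind : LinearIndependent K fun i => F i 0 := by
    have e : (fun i => F i 0) = Fin.cons (g 0) (fun i => φ 0 (v i)) := by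
      ext i
      refine Fin.cases ?_ (fun j => ?_) i
      · rw [Fin.cons_zero, hz]
      · rw [Fin.cons_succ, hFs]
    rw [e, linearIndependent_finCons]
    exact ⟨hv, by rw [hsp]; exact hne⟩
  obtain ⟨u, hu, hi⟩ := exists_indep F hpoly hind
  have h1 := card_le_finrank_range (φ u) hi (by
    intro i
    refine Fin.cases ?_ (fun j => ?_) i
    · rw [hF0]
      have h2 : ∑ i ∈ range M, u ^ i • g i = φ u (u⁻¹ • w) := by
        rw [map_smul, hg u, smul_smul, inv_mul_cancel₀ hu, one_smul]
      rw [h2]
      exact LinearMap.mem_range_self _ _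
    · rw [hFs]
      exact LinearMap.mem_range_self _ _)
  have h2 := hr u
  omega

end

end Pool.Agent.helper61.PN
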