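import Pool.Agent.helper61.PN.Comm

/-!
# The commutative case
-/

namespace Pool.Agent.helper61.PN

open Finset Module Polynomial

variable {K : Type*} [Field K] [CharZero K] {U : Type*} [CommRing U] [Algebra K U]

omit [CharZero K] in
lemma scalar_eq_zero (m : Ideal U) (h1 : (1 : U) ∉ m) (k : K) (hk : algebraMap K U k ∈ m) : k = 0 := by
  by_contra hne
  apply h1
  have : (1 : U) = algebraMap K U k⁻¹ * algebraMap K U k := by
    rw [← map_mul, inv_mul_cancel₀ hne, map_one]
  rw [this]
  exact m.mul_mem_left _ hk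

omit [CharZero K] in
lemma mem_adjoin_idem (e : U) (he : e * e = e) (x : U) (hx : x ∈ Algebra.adjoin K {e}) :
    ∃ α β : K, x = algebraMap K U α + β • e := by
  induction hx using Algebra.adjoin_induction with
  | mem x hx =>
    rw [Set.mem_singleton_iff] at hx
    exact ⟨0, 1, by rw [hx, map_zero, zero_add, one_smul]⟩
  | algebraMap r => exact ⟨r, 0, by rw [zero_smul, add_zero]⟩
  | add x y _ _ hx hy =>
    obtain ⟨α, β, rfl⟩ := hx
    obtain ⟨γ, δ, rfl⟩ := hy
    exact ⟨α + γ, β + δ, by rw [map_add, add_smul]; ring⟩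
  | mul x y _ _ hx hy =>
    obtain ⟨α, β, rfl⟩ := hx
    obtain ⟨γ, δ, rfl⟩ := hy
    refine ⟨α * γ, α * δ + β * γ + β * δ, ?_⟩
    simp only [Algebra.smul_def, map_add, map_mul]
    linear_combination (algebraMap K U β * algebraMap K U δ) * he

omit [CharZero K] in
/-- every element of `m` is nilpotent. -/
lemma all_nil (m : Ideal U) (h1 : (1 : U) ∉ m)
    (hprop : ∀ S : Subalgebra K U, S ≠ ⊤ → ∃ n : ℕ, ∀ l : List U, (∀ x ∈ l, x ∈ S ∧ x ∈ m) →
      l.length = n → l.prod = 0)
    (hdim : ∀ e ∈ m, ∃ x ∈ m, x ∉ K ∙ e) : ∀ a ∈ m, IsNilpotent a := by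
  intro a ha
  by_contra hna
  have key : ∀ b ∈ m, ¬ IsNilpotent b → Algebra.adjoin K {b} = ⊤ := by
    intro b hb hnb
    by_contra hne
    obtain ⟨n, hn⟩ := hprop _ hne
    apply hnb
    refine ⟨n, ?_⟩
    have := hn (List.replicate n b) (fun x hx => by
      rw [List.mem_replicate] at hx
      rw [hx.2]
      exact ⟨Algebra.subset_adjoin rfl, hb⟩) (List.length_replicate)
    rwa [List.prod_replicate] at this
  have h2 := key (a ^ 2) (by rw [pow_two]; exact m.mul_mem_left _ ha) (by
    rintro ⟨n, hn⟩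
    exact hna ⟨2 * n, by rw [pow_mul, hn]⟩)
  have h3 : a ∈ Algebra.adjoin K {a ^ 2} := by rw [h2]; exact Algebra.mem_top
  rw [Algebra.adjoin_singleton_eq_range_aeval] at h3
  obtain ⟨P, hP⟩ := h3
  have hP' : aeval (a ^ 2) P = a := hP
  rw [← divX_mul_X_add P, map_add, map_mul, aeval_X, aeval_C] at hP'
  set q := aeval (a ^ 2) P.divX with hq
  have h4 : P.coeff 0 = 0 := by
    refine scalar_eq_zero m h1 _ ?_
    have : algebraMap K U (P.coeff 0) = a - q * a ^ 2 := by linear_combination hP'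
    rw [this, pow_two, ← mul_assoc]
    exact m.sub_mem ha (m.mul_mem_left _ ha)
  rw [h4, map_zero, add_zero] at hP'
  set e := q * a with he
  have hem : e ∈ m := m.mul_mem_left _ ha
  have hee : e * e = e := by
    rw [he]
    linear_combination q * hP'
  have hae : a = a * e := by
    rw [he]
    linear_combination -hP'
  have hen : ¬ IsNilpotent e := by
    rintro ⟨n, hn⟩
    apply hna
    refine ⟨1, ?_⟩
    have h5 : ∀ k, a = a * e ^ k := by
      intro k
      induction k with
      | zero => rw [pow_zero, mul_one]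
      | succ k ih => rw [pow_succ, ← mul_assoc, ← ih, ← hae]
    rw [pow_one, h5 n, hn, mul_zero]
  have h6 := key e hem hen
  obtain ⟨x, hx, hxe⟩ := hdim e hem
  obtain ⟨α, β, hαβ⟩ := mem_adjoin_idem e hee x (by rw [h6]; exact Algebra.mem_top)
  have h7 : α = 0 := by
    refine scalar_eq_zero m h1 _ ?_
    have : algebraMap K U α = x - β • e := by rw [hαβ]; ring
    rw [this]
    refine m.sub_mem hx ?_
    rw [Algebra.smul_def]
    exact m.mul_mem_left _ hem
  apply hxe
  rw [hαβ, h7, map_zero, zero_add]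
  exact Submodule.smul_mem _ _ (Submodule.mem_span_singleton_self e)

/-- an ideal all of whose `n`-fold products vanish. -/
lemma ideal_pow_eq_bot (I : Ideal U) (n : ℕ)
    (h : ∀ l : List U, (∀ x ∈ l, x ∈ I) → l.length = n → l.prod = 0) : I ^ n = ⊥ := by
  have key : ∀ k : ℕ, ∀ x ∈ I ^ k, ∀ l : List U, (∀ x ∈ l, x ∈ I) → l.length + k = n →
      l.prod * x = 0 := by
    intro k
    induction k with
    | zero =>
      intro x _ l hl hln
      rw [h l hl (by omega), zero_mul]
    | succ k ih =>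
      intro x hx l hl hln
      rw [pow_succ] at hx
      refine Submodule.mul_induction_on hx ?_ ?_
      · intro s hs t ht
        have := ih s hs (t :: l) (by
          intro y hy
          rcases List.mem_cons.mp hy with rfl | hy
          · exact ht
          · exact hl y hy) (by rw [List.length_cons]; omega)
        rw [List.prod_cons] at this
        rw [← this]
        ring
      · intro s t hs ht
        rw [mul_add, hs, ht, add_zero]
  rw [eq_bot_iff]
  intro x hx
  have := key n x hx [] (by simp) (by simp)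
  rw [List.prod_nil, one_mul] at this
  rw [this]
  exact Submodule.zero_mem _

lemma list_prod_mem_pow (I : Ideal U) (l : List U) (h : ∀ x ∈ l, x ∈ I) : l.prod ∈ I ^ l.length := by
  induction l with
  | nil => simp
  | cons a l ih =>
    rw [List.prod_cons, List.length_cons, pow_succ']
    exact Ideal.mul_mem_mul (h a List.mem_cons_self) (ih fun x hx => h x (List.mem_cons_of_mem _ hx))

omit [CharZero K] in
/-- `m` is nilpotent or perfect. -/
lemma perfect_or (m : Ideal U) (h1 : (1 : U) ∉ m)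
    (hprop : ∀ S : Subalgebra K U, S ≠ ⊤ → ∃ n : ℕ, ∀ l : List U, (∀ x ∈ l, x ∈ S ∧ x ∈ m) →
      l.length = n → l.prod = 0) :
    m * m = m ∨ ∃ n : ℕ, ∀ l : List U, (∀ x ∈ l, x ∈ m) → l.length = n → l.prod = 0 := by
  by_cases hmm : m * m = m
  · exact Or.inl hmm
  right
  set S : Subalgebra K U := (⊥ : Subalgebra K (U ⧸ (m * m))).comap (Ideal.Quotient.mkₐ K (m * m))
    with hS
  have hmem : ∀ x ∈ m * m, x ∈ S := by
    intro x hx
    rw [hS, Subalgebra.mem_comap, Ideal.Quotient.mkₐ_eq_mk, Ideal.Quotient.eq_zero_iff_mem.mpr hx]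
    exact Subalgebra.zero_mem _
  have hle : m * m ≤ m := Ideal.mul_le_right
  have hne : S ≠ ⊤ := by
    intro htop
    apply hmm
    refine le_antisymm hle fun x hx => ?_
    have hxS : x ∈ S := by rw [htop]; exact Algebra.mem_top
    rw [hS, Subalgebra.mem_comap, Algebra.mem_bot] at hxS
    obtain ⟨k, hk⟩ := hxS
    have h2 : x - algebraMap K U k ∈ m * m := by
      rw [← Ideal.Quotient.eq]
      exact hk.symm
    have h3 : k = 0 := by
      refine scalar_eq_zero m h1 _ ?_
      have : algebraMap K U k = x - (x - algebraMap K U k) := by ring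
      rw [this]
      exact m.sub_mem hx (hle h2)
    rwa [h3, map_zero, sub_zero] at h2
  obtain ⟨n, hn⟩ := hprop S hne
  have h2 : (m * m) ^ n = ⊥ := ideal_pow_eq_bot _ n fun l hl hln =>
    hn l (fun x hx => ⟨hmem x (hl x hx), hle (hl x hx)⟩) hln
  refine ⟨2 * n, fun l hl hln => ?_⟩
  have h3 := list_prod_mem_pow m l hl
  rw [hln, pow_mul, pow_two, h2] at h3
  exact h3

/-- **the commutative case, unital form**. -/
theorem comm_U (m : Ideal U) (h1 : (1 : U) ∉ m)
    (hprop : ∀ S : Subalgebra K U, S ≠ ⊤ → ∃ n : ℕ, ∀ l : List U, (∀ x ∈ l, x ∈ S ∧ x ∈ m) →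
      l.length = n → l.prod = 0)
    (hdim : ∀ e ∈ m, ∃ x ∈ m, x ∉ K ∙ e) :
    ∃ n : ℕ, ∀ l : List U, (∀ x ∈ l, x ∈ m) → l.length = n → l.prod = 0 := by
  rcases perfect_or m h1 hprop with hmm | h
  swap
  · exact h
  have hnil := all_nil m h1 hprop hdim
  obtain ⟨z, hz, hz0⟩ := hdim 0 m.zero_mem
  have hzne : z ≠ 0 := by
    rintro rfl
    exact hz0 (Submodule.zero_mem _)
  exfalso
  -- the sequence
  let G : Subalgebra K U × U → Prop := fun T => FiniteDimensional K T.1 ∧ z ∉ T.1 ∧ ∃ x ∈ m, T.2 * x ≠ 0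
  have hstart : G (⊥, 1) := by
    refine ⟨?_, ?_, z, hz, by rw [one_mul]; exact hzne⟩
    · infer_instance
    · intro hzb
      rw [Algebra.mem_bot] at hzb
      obtain ⟨k, rfl⟩ := hzb
      rw [scalar_eq_zero m h1 k hz, map_zero] at hzne
      exact hzne rfl
  have hstep : ∀ T : {T // G T}, ∃ T' : {T // G T}, T.1.1 ≤ T'.1.1 ∧ ∃ y ∈ T'.1.1, y ∈ m ∧
      T'.1.2 = T.1.2 * y := by
    rintro ⟨⟨S, p⟩, hfd, hzS, hp⟩
    have : FiniteDimensional K S := hfd
    obtain ⟨S', hSS, hfd', hz', y, hyS, hym, hy⟩ := main_step m hmm hnil S z hzS p hp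
    exact ⟨⟨(S', p * y), hfd', hz', hy⟩, hSS, y, hyS, hym, rfl⟩
  choose nxt hnxt using hstep
  let s : ℕ → {T // G T} := fun n => Nat.rec ⟨(⊥, 1), hstart⟩ (fun _ T => nxt T) n
  have hs : ∀ n, s (n + 1) = nxt (s n) := fun n => rfl
  have hs0 : (s 0).1.2 = 1 := rfl
  choose y hyS hym hyp using fun n => (hnxt (s n)).2
  have hmono : Monotone fun n => (s n).1.1 := monotone_nat_of_le_succ fun n => (hnxt (s n)).1
  have hprod : ∀ n, (s n).1.2 = ((List.range n).map y).prod := by
    intro n
    induction n with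
    | zero => rw [hs0, List.range_zero, List.map_nil, List.prod_nil]
    | succ n ih => rw [hs, hyp, ih, List.range_succ, List.map_append, List.prod_append, List.map_singleton,
        List.prod_singleton]
  set C : Subalgebra K U := ⨆ n, (s n).1.1 with hC
  have hdir : Directed (· ≤ ·) fun n => (s n).1.1 := hmono.directed_le
  have hzC : z ∉ C := by
    intro h
    rw [hC, ← SetLike.mem_coe, Subalgebra.coe_iSup_of_directed hdir, Set.mem_iUnion] at h
    obtain ⟨n, hn⟩ := h
    exact (s n).2.2.1 hn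
  have hCtop : C ≠ ⊤ := by
    rintro h
    rw [h] at hzC
    exact hzC Algebra.mem_top
  obtain ⟨n, hn⟩ := hprop C hCtop
  have h2 := hn ((List.range n).map y) (by
    intro x hx
    rw [List.mem_map] at hx
    obtain ⟨i, _, rfl⟩ := hx
    refine ⟨?_, hym i⟩
    have h3 : (s (i + 1)).1.1 ≤ C := le_iSup (fun n => (s n).1.1) (i + 1)
    exact h3 (hyS i)) (by rw [List.length_map, List.length_range])
  rw [← hprod n] at h2
  obtain ⟨x, _, hx⟩ := (s n).2.2.2
  rw [h2, zero_mul] at hx
  exact hx rfl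

end Pool.Agent.helper61.PN
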